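import Pool.Agent.Helper71.HN.SheetH

/-! Project HN, row CUSG: combinations of the monomials of given weights on a curve close to the
curve `y ^ 2 = x ^ (2 g + 1)` which vanish to the order `k` (helper16, after helper70's `cusp`). -/

set_option autoImplicit false

namespace Pool.Agent.Helper16.HN

open Polynomial Pool.Agent.Helper71.HN

theorem em_map {A B : Type} [CommSemiring A] [CommSemiring B] (f : A →+* B) (g : ℕ) (x y : A)
    (W : ℕ) : f (em g x y W) = em g (f x) (f y) W := by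
  unfold Pool.Agent.Helper71.HN.em
  split_ifs <;> simp

theorem em_sq {A : Type} [CommRing A] (g : ℕ) (s : A) {W : ℕ} (hW : Ok g W) :
    em g (s ^ 2) (s ^ (2 * g + 1)) W = s ^ W := by
  unfold Pool.Agent.Helper71.HN.em
  split_ifs with h
  · obtain ⟨m, rfl⟩ := h
    rw [← pow_mul]
    congr 1
    omega
  · have h1 : 2 * g + 1 ≤ W := hW.resolve_left h
    obtain ⟨m, rfl⟩ := Nat.not_even_iff_odd.1 h
    rw [← pow_mul, ← pow_add]
    congr 1
    omega

/-- monomials with congruent arguments -/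
theorem em_dvd {A : Type} [CommRing A] (g : ℕ) (x y y' t : A) (h : t ∣ y - y') (W : ℕ) :
    t ∣ em g x y W - em g x y' W := by
  unfold Pool.Agent.Helper71.HN.em
  split_ifs
  · simp
  · rw [← mul_sub]
    exact h.mul_left _

/-- the case of constant coefficients -/
theorem cus0 (hF : ST_FEW) (g k K : ℕ) (hK : k ≤ K) (p u : ℚ[X]) (W : Fin k → ℕ)
    (hp0 : p.coeff 0 = 1) (hpu : p ^ 2 - (1 + X) = X ^ K * u) (hW : Function.Injective W)
    (hO : ∀ j, Ok g (W j)) (v : Fin k → ℚ)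
    (hv : X ^ k ∣ ∑ j : Fin k, C (v j) *
      em g (1 + X) (aeval ((1 + X : ℚ[X]) ^ (2 * g + 1) - 1) p) (W j)) : v = 0 := by
  -- substitution `X = 2 t + t ^ 2`
  set V : ℚ[X] := (1 + X) ^ (2 * g + 1) - 1 with hV
  set T : ℚ[X] := (1 + X) ^ 2 - 1 with hT
  have hT1 : (1 + X : ℚ[X]).comp T = (1 + X) ^ 2 := by
    rw [add_comp, one_comp, X_comp, hT]
    ring
  have hXn : ∀ n : ℕ, (X : ℚ[X]) ∣ (1 + X) ^ n - 1 := by
    intro n
    have := sub_dvd_pow_sub_pow (1 + X : ℚ[X]) 1 n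
    rwa [add_sub_cancel_left, one_pow] at this
  have hXT : (X : ℚ[X]) ∣ T := hXn 2
  set Z : ℚ[X] := (aeval V p).comp T with hZ
  have hZp : Z = p.comp (V.comp T) := by
    rw [hZ, ← comp_eq_aeval, comp_assoc]
  have hVT : V.comp T = (1 + X) ^ (2 * (2 * g + 1)) - 1 := by
    rw [hV, sub_comp, pow_comp, hT1, one_comp, ← pow_mul]
  have hXV : (X : ℚ[X]) ∣ V.comp T := by
    rw [hVT]
    exact hXn _
  have hZ2 : (X : ℚ[X]) ^ K ∣ (Z - (1 + X) ^ (2 * g + 1)) * (Z + (1 + X) ^ (2 * g + 1)) := by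
    have h1 : (p ^ 2 - (1 + X)).comp (V.comp T) =
        (Z - (1 + X) ^ (2 * g + 1)) * (Z + (1 + X) ^ (2 * g + 1)) := by
      rw [sub_comp, pow_comp, ← hZp, add_comp, one_comp, X_comp, hVT, pow_mul']
      ring
    rw [← h1, hpu, mul_comp, pow_comp, X_comp]
    exact (pow_dvd_pow_of_dvd hXV K).mul_right _
  have hZ0 : ¬ (X : ℚ[X]) ∣ Z + (1 + X) ^ (2 * g + 1) := by
    rw [X_dvd_iff]
    have h1 : (Z + (1 + X) ^ (2 * g + 1)).coeff 0 = 2 := by
      rw [coeff_zero_eq_eval_zero, eval_add, hZp, hVT, eval_comp]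
      have h2 : eval 0 ((1 + X : ℚ[X]) ^ (2 * (2 * g + 1)) - 1) = 0 := by simp
      rw [h2, ← coeff_zero_eq_eval_zero, hp0]
      simp
      norm_num
    rw [h1]
    norm_num
  have hZd : (X : ℚ[X]) ^ k ∣ Z - (1 + X) ^ (2 * g + 1) :=
    (pow_dvd_pow X hK).trans ((prime_X).pow_dvd_of_dvd_mul_right K hZ0 hZ2)
  -- the polynomial in `t`
  have hE : ∀ j, (X : ℚ[X]) ^ k ∣ (em g (1 + X) (aeval V p) (W j)).comp T - (1 + X) ^ (W j) := by
    intro j
    have h1 : (em g (1 + X) (aeval V p) (W j)).comp T = em g ((1 + X) ^ 2) Z (W j) := by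
      have := em_map (compRingHom T) g (1 + X : ℚ[X]) (aeval V p) (W j)
      simp only [coe_compRingHom_apply] at this
      rw [this, hT1]
    rw [h1, ← em_sq g (1 + X : ℚ[X]) (hO j)]
    exact em_dvd _ _ _ _ _ hZd _
  refine hF k W v hW ?_
  have h1 : (X : ℚ[X]) ^ k ∣
      (∑ j : Fin k, C (v j) * em g (1 + X) (aeval V p) (W j)).comp T := by
    obtain ⟨q, hq⟩ := hv
    rw [hq, mul_comp, pow_comp, X_comp]
    exact (pow_dvd_pow_of_dvd hXT k).mul_right _
  have h2 : (X : ℚ[X]) ^ k ∣ (∑ j : Fin k, C (v j) * em g (1 + X) (aeval V p) (W j)).comp T -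
      ∑ j : Fin k, C (v j) * (1 + X) ^ (W j) := by
    rw [sum_comp, ← Finset.sum_sub_distrib]
    refine Finset.dvd_sum fun j _ => ?_
    rw [mul_comp, C_comp, ← mul_sub]
    exact (hE j).mul_left _
  exact (dvd_sub_right h1).1 h2

theorem CUSG (hF : ST_FEW) : ST_CUSG := by
  classical
  intro g k K A _ _ ε V p u W w _ hK hp0 hpu hV hW hO
  set E : ℕ → A[X] := fun W => em g (1 + X) (aeval V p) W with hE
  set M : Matrix (Fin k) (Fin k) A := fun l j => (E (W j)).coeff l with hM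
  set b : Fin k → A := fun l => (E w).coeff l with hb
  refine ⟨-(M.adjugate.mulVec b), M.det, ?_, ?_⟩
  · intro h0
    have h1 : (M.map (ε : A →+* ℚ)).det = 0 := by
      rw [← RingHom.mapMatrix_apply, ← RingHom.map_det]
      exact h0
    obtain ⟨v, hv0, hv⟩ := Matrix.exists_mulVec_eq_zero_iff.2 h1
    apply hv0
    refine cus0 hF g k K hK p u W hp0 hpu hW hO v ?_
    have hmap : ∀ W, (E W).map (ε : A →+* ℚ) =
        em g (1 + X) (aeval ((1 + X : ℚ[X]) ^ (2 * g + 1) - 1) p) W := by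
      intro W
      have h2 := em_map (mapRingHom (ε : A →+* ℚ)) g (1 + X : A[X]) (aeval V p) W
      simp only [coe_mapRingHom] at h2
      have h3 : (aeval V p).map (ε : A →+* ℚ) =
          aeval ((1 + X : ℚ[X]) ^ (2 * g + 1) - 1) p := by
        rw [← hV, aeval_def, aeval_def, ← coe_mapRingHom, hom_eval₂]
        congr 1
        exact Subsingleton.elim _ _
      rw [hE]
      simp only
      rw [h2, h3]
      simp
    rw [X_pow_dvd_iff]
    intro l hl
    have h2 : ∑ j : Fin k, (ε : A →+* ℚ) (M ⟨l, hl⟩ j) * v j = 0 := congrFun hv ⟨l, hl⟩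
    rw [finsetSum_coeff]
    refine Eq.trans (Finset.sum_congr rfl fun j _ => ?_) h2
    rw [coeff_C_mul, ← hmap, coeff_map, mul_comm]
  · rw [X_pow_dvd_iff]
    intro l hl
    rw [coeff_add, finsetSum_coeff, coeff_C_mul]
    have h1 : ∑ j : Fin k, (C ((-(M.adjugate.mulVec b)) j) * E (W j)).coeff l =
        (M.mulVec (-(M.adjugate.mulVec b))) ⟨l, hl⟩ := by
      simp only [Matrix.mulVec, dotProduct]
      refine Finset.sum_congr rfl fun j _ => ?_
      rw [coeff_C_mul, mul_comm]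
    rw [h1, Matrix.mulVec_neg, Matrix.mulVec_mulVec, Matrix.mul_adjugate, Matrix.smul_mulVec,
      Matrix.one_mulVec]
    simp [hb, hE]

end Pool.Agent.Helper16.HN
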