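import Pool.Agent.Helper71.HN.SheetH

/-! Project HN, row DEX: derivations extend to finite extensions (helper16). -/

set_option autoImplicit false

namespace Pool.Agent.Helper16.HN

open Pool.Agent.Helper71.HN

/-- a function which is a derivation, as a derivation -/
noncomputable def toDer {K : Type} [Field K] (δ : K → K) (h : Dv δ) : Derivation ℤ K K :=
  Derivation.mk' (AddMonoidHom.toIntLinearMap
    { toFun := δ
      map_zero' := by
        have := h.1 0 0
        rw [add_zero] at this
        exact left_eq_add.1 this
      map_add' := h.1 }) fun a b => by
    show δ (a * b) = a • δ b + b • δ a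
    rw [h.2, smul_eq_mul, smul_eq_mul]

theorem DEX : ST_DEX := by
  intro K L _ _ _ _ _ δ hδ
  let _ : Differential K := ⟨toDer δ hδ⟩
  let _ : Differential L := Differential.differentialFiniteDimensional K L
  have _ : DifferentialAlgebra K L := Differential.differentialAlgebraFiniteDimensional
  refine ⟨fun z => Differential.deriv z, ⟨fun a b => map_add _ a b, fun a b => ?_⟩, fun a => ?_⟩
  · show Differential.deriv (a * b) = _
    rw [Derivation.leibniz, smul_eq_mul, smul_eq_mul]
  · exact DifferentialAlgebra.deriv_algebraMap a

end Pool.Agent.Helper16.HN
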