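import Pool.Agent.Helper71.HN.SheetH

/-! Project HN, row FEW: a sum of `k` powers of `1 + X` with different exponents is not divisible by
`X ^ k` (helper16). -/

set_option autoImplicit false

namespace Pool.Agent.Helper16.HN

open Polynomial Pool.Agent.Helper71.HN

theorem FEW : ST_FEW := by
  intro k W v hW hd
  have key : ∀ i m : ℕ, (X : ℚ[X]) ^ (m + i) ∣ ∑ j, C (v j) * (1 + X) ^ (W j) →
      (X : ℚ[X]) ^ m ∣ ∑ j, C (v j * (W j : ℚ) ^ i) * (1 + X) ^ (W j) := by
    intro i
    induction i with
    | zero =>
      intro m h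
      simpa using h
    | succ i ih =>
      intro m h
      obtain ⟨q, hq⟩ := ih (m + 1) (by rwa [show m + 1 + i = m + (i + 1) by ring])
      have h2 : (X : ℚ[X]) ^ m ∣
          derivative (∑ j, C (v j * (W j : ℚ) ^ i) * (1 + X) ^ (W j)) := by
        rw [hq, derivative_mul, derivative_X_pow]
        refine dvd_add ?_ ?_
        · rw [Nat.add_sub_cancel, mul_assoc]
          exact (Dvd.intro _ rfl).mul_left _
        · exact (pow_dvd_pow X (Nat.le_succ m)).mul_right _
      have h3 : (1 + X) * derivative (∑ j, C (v j * (W j : ℚ) ^ i) * (1 + X) ^ (W j)) =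
          ∑ j, C (v j * (W j : ℚ) ^ (i + 1)) * (1 + X) ^ (W j) := by
        rw [derivative_sum, Finset.mul_sum]
        refine Finset.sum_congr rfl fun j _ => ?_
        rw [derivative_C_mul, derivative_pow, derivative_add, derivative_one, derivative_X,
          zero_add, mul_one]
        rcases Nat.eq_zero_or_pos (W j) with h0 | h0
        · rw [h0]
          simp
        · have h4 : (1 + X : ℚ[X]) ^ (W j) = (1 + X) ^ (W j - 1) * (1 + X) := by
            rw [← pow_succ, Nat.sub_add_cancel h0]
          rw [h4, pow_succ]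
          simp only [C_mul, map_pow, map_natCast]
          ring
      rw [← h3]
      exact h2.mul_left _
  refine Matrix.eq_zero_of_forall_pow_sum_mul_pow_eq_zero (f := fun j => (W j : ℚ))
    (fun a b hab => hW (Nat.cast_injective hab)) fun i => ?_
  have h1 := key i (k - i) (by rwa [Nat.sub_add_cancel i.2.le])
  have h2 : (X : ℚ[X]) ∣ ∑ j, C (v j * (W j : ℚ) ^ (i : ℕ)) * (1 + X) ^ (W j) :=
    (dvd_pow_self X (by have := i.2; omega)).trans h1
  rw [X_dvd_iff, coeff_zero_eq_eval_zero, eval_finsetSum] at h2
  simpa using h2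

end Pool.Agent.Helper16.HN
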